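import Mathlib
import Pool.Agent.H359R3.W3

/-!
# MP_365e45_an, Q1 (negated form)

There are an admissible weight satisfying the Fourier approximation condition, an invertible
measure-preserving system, exponents `p, q > 1` with `1/p + 1/q ≥ 1` and functions `f ∈ L^p`,
`g ∈ L^q` whose weighted bilinear averages fail to converge on a set of positive measure.
-/

open MeasureTheory Filter Topology
open scoped ENNReal ComplexConjugate

namespace Pool.Agent.Results.MP_365e45_an.WeightedDivergence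

/-- `e(x) = exp(2πix)`. -/
noncomputable def ee (x : ℝ) : ℂ := Complex.exp (2 * Real.pi * Complex.I * x)

/-- Upper normalization: for some finite `C`, the limsup, over integer intervals `I = [a,b]` with
`|I| → ∞` and `0 ∈ 10 I`, of the average of `|w|` over `I` is at most `C`. -/
def UpperNormalized (w : ℤ → ℂ) : Prop :=
  ∃ C : ℝ, ∀ ε : ℝ, 0 < ε → ∃ L : ℤ, ∀ a b : ℤ, a ≤ b → L ≤ b - a + 1 →
    |a + b| ≤ 10 * (b - a + 1) →
    (∑ n ∈ Finset.Icc a b, ‖w n‖) / ((b - a + 1 : ℤ) : ℝ) ≤ C + ε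

/-- `f · 1_[N]`, with `[N] = {1,…,N}`. -/
noncomputable def cut (N : ℕ) (f : ℤ → ℂ) (n : ℤ) : ℂ :=
  if 1 ≤ n ∧ n ≤ (N : ℤ) then f n else 0

/-- The Gowers sum of `F = f · 1_[N]`: the sum over all `x, h₁, …, h_s ∈ ℤ` of the product over
subsets `ω` of `{1,…,s}` of `C^{|ω|} F(x + ∑_{i ∈ ω} h_i)`, `C` being complex conjugation
(terms with `x ∉ [1,N]` or some `|h_i| > N` vanish). -/
noncomputable def gowersSum (s N : ℕ) (f : ℤ → ℂ) : ℂ :=
  ∑ x ∈ Finset.Icc (1 : ℤ) N,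
    ∑ h ∈ Fintype.piFinset (fun _ : Fin s => Finset.Icc (-(N : ℤ)) N),
      ∏ ω : Finset (Fin s), if Even ω.card then cut N f (x + ∑ i ∈ ω, h i)
        else conj (cut N f (x + ∑ i ∈ ω, h i))

/-- The Gowers norm `‖f‖_{U^s([N])} = ‖f 1_[N]‖_{U^s(ℤ)} / ‖1_[N]‖_{U^s(ℤ)}`. -/
noncomputable def gowersNorm (s N : ℕ) (f : ℤ → ℂ) : ℝ :=
  (‖gowersSum s N f‖ / ‖gowersSum s N (fun _ => 1)‖) ^ ((1 : ℝ) / 2 ^ s)

/-- `∑_{a mod q, (a,q)=1} S(a/q) e(na/q)`. -/
noncomputable def arcs (S : ℚ → ℂ) (q : ℕ) (n : ℤ) : ℂ :=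
  ∑ a ∈ (Finset.range q).filter (fun a => Nat.Coprime a q),
    S ((a : ℚ) / (q : ℚ)) * ee ((n : ℝ) * (a : ℝ) / (q : ℝ))

/-- `∑_{q ≤ M} ∑_{(a,q)=1} S(a/q) e(na/q)`. -/
noncomputable def majorArcs (S : ℚ → ℂ) (M : ℕ) (n : ℤ) : ℂ :=
  ∑ q ∈ Finset.Icc 1 M, arcs S q n

/-- `w_Q(n)`, the part of the sum with `Q/2 < q ≤ Q`. -/
noncomputable def dyadicPiece (S : ℚ → ℂ) (Q : ℕ) (n : ℤ) : ℂ :=
  ∑ q ∈ (Finset.Icc 1 Q).filter (fun q => Q < 2 * q), arcs S q n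

/-- `∑_{Q ≤ M} w_Q(n)`, `Q` running over the powers of `2`. -/
noncomputable def dyadicSum (S : ℚ → ℂ) (M : ℕ) (n : ℤ) : ℂ :=
  ∑ k ∈ (Finset.range (M + 1)).filter (fun k => 2 ^ k ≤ M), dyadicPiece S (2 ^ k) n

/-- `|S(a/q)| ≤ C q^{o(1)-1}`. -/
def SizeS (S : ℚ → ℂ) : Prop :=
  ∃ (C : ℝ) (δ : ℕ → ℝ), Tendsto δ atTop (𝓝 0) ∧
    ∀ r : ℚ, ‖S r‖ ≤ C * (r.den : ℝ) ^ (δ r.den - 1)

/-- `M(N) ≤ N^{o(1)}` for all large `N`. -/
def SizeM (M : ℕ → ℕ) : Prop :=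
  ∃ δ : ℕ → ℝ, Tendsto δ atTop (𝓝 0) ∧ ∀ᶠ N : ℕ in atTop, (M N : ℝ) ≤ (N : ℝ) ^ (δ N)

/-- The major-arc approximation condition for `w`, with the data `S` and `M`. -/
def MajorArcApprox (w : ℤ → ℂ) (S : ℚ → ℂ) (M : ℕ → ℕ) : Prop :=
  SizeS S ∧ SizeM M ∧ ∃ (C ν : ℝ) (s : ℕ), 4 < ν ∧ 3 ≤ s ∧ ∀ᶠ N : ℕ in atTop,
    gowersNorm s N (fun n => w n - majorArcs S (M N) n) ≤ C * (Real.log N) ^ (-(ν / 2 ^ s))

/-- The Fourier approximation condition for `w`, with the data `S` and `M`. -/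
def FourierApprox (w : ℤ → ℂ) (S : ℚ → ℂ) (M : ℕ → ℕ) : Prop :=
  ∃ c : ℝ, 0 < c ∧ ∃ C : ℝ, ∀ᶠ N : ℕ in atTop, ∀ β : ℝ,
    ‖(1 / (N : ℂ)) * ∑ n ∈ Finset.Icc (1 : ℤ) N,
      (w n - dyadicSum S (M N) n) * ee (-((n : ℝ) * β))‖ ≤ C * (N : ℝ) ^ (-c)

/-- `B_{w,N}(f,g)(x) = (1/N) ∑_{n ≤ N} w(n) f(T^n x) g(T^{-n} x)`. -/
noncomputable def bilin {X : Type} [MeasurableSpace X] (w : ℤ → ℂ) (T : X ≃ᵐ X) (f g : X → ℂ)
    (N : ℕ) (x : X) : ℂ :=
  (1 / (N : ℂ)) * ∑ n ∈ Finset.Icc 1 N,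
    w (n : ℤ) * (f ((T : X → X)^[n] x) * g ((T.symm : X → X)^[n] x))

/-! ### Proofs -/

open Pool.H359R3.W

/-- the data `S`: the indicator function of the integers -/
def S0 (r : ℚ) : ℂ := if r.den = 1 then 1 else 0

theorem upper : UpperNormalized w := by
  refine ⟨12, fun ε hε => ⟨0, fun a b hab _ h => ?_⟩⟩
  have h1 := w_upper a b hab h
  have h2 : (0 : ℝ) < ((b - a + 1 : ℤ) : ℝ) := by
    have : (0 : ℤ) < b - a + 1 := by omega
    exact_mod_cast this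
  have h3 : (∑ n ∈ Finset.Icc a b, ‖w n‖) / ((b - a + 1 : ℤ) : ℝ) ≤ 12 := by
    rw [div_le_iff₀ h2]
    exact h1
  linarith

theorem arcs_one (n : ℤ) : arcs S0 1 n = 1 := by
  unfold arcs
  have : (Finset.range 1).filter (fun a => Nat.Coprime a 1) = {0} := by decide
  rw [this, Finset.sum_singleton]
  simp [S0, ee]

theorem major_one (n : ℤ) : majorArcs S0 1 n = 1 := by
  unfold majorArcs
  rw [Finset.Icc_self, Finset.sum_singleton, arcs_one]

theorem dyadic_one (n : ℤ) : dyadicSum S0 1 n = 1 := by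
  unfold dyadicSum
  have : (Finset.range (1 + 1)).filter (fun k => 2 ^ k ≤ 1) = {0} := by decide
  rw [this, Finset.sum_singleton]
  unfold dyadicPiece
  have h2 : (Finset.Icc 1 (2 ^ 0)).filter (fun q => 2 ^ 0 < 2 * q) = {1} := by decide
  rw [h2, Finset.sum_singleton, arcs_one]

theorem sizeS0 : SizeS S0 := by
  refine ⟨1, fun _ => 0, tendsto_const_nhds, fun r => ?_⟩
  unfold S0
  split_ifs with h
  · rw [h]; simp
  · simp
    positivity

theorem sizeM1 : SizeM (fun _ => 1) := by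
  refine ⟨fun _ => 0, tendsto_const_nhds, Filter.Eventually.of_forall (fun N => ?_)⟩
  simp

theorem gowers_num (N : ℕ) (hN : 1 ≤ N) :
    ‖gowersSum 3 N (fun n => w n - majorArcs S0 1 n)‖ ≤ (4 * N / 2 ^ (Nat.log N0 N)) ^ 4 := by
  set J := Nat.log N0 N with hJ
  set a : ℤ → ℝ := fun n => ‖cut N (fun n => w n - majorArcs S0 1 n) n‖ with ha
  have hcut : ∀ n : ℤ, a n = if 1 ≤ n ∧ n ≤ (N : ℤ) then (gw n.toNat : ℝ) else 0 := by
    intro n
    simp only [ha]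
    unfold cut
    split_ifs with h
    · show ‖w n - majorArcs S0 1 n‖ = _
      rw [major_one, w_sub_one]
      simp
    · simp
  have h1 : ‖gowersSum 3 N (fun n => w n - majorArcs S0 1 n)‖ ≤
      ∑ x ∈ Finset.Icc (1 : ℤ) N, ∑ h ∈ Fintype.piFinset (fun _ : Fin 3 => Finset.Icc (-(N : ℤ)) N),
      ∏ ω : Finset (Fin 3), a (x + ∑ i ∈ ω, h i) := by
    unfold gowersSum
    refine (norm_sum_le _ _).trans ?_
    apply Finset.sum_le_sum
    intro x _
    refine (norm_sum_le _ _).trans ?_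
    apply Finset.sum_le_sum
    intro h _
    rw [norm_prod]
    apply le_of_eq
    apply Finset.prod_congr rfl
    intro ω _
    split_ifs
    · rfl
    · rw [RCLike.norm_conj]
  have hB : ∀ n : ℤ, a n ≤ 2 * 64 ^ J := by
    intro n
    rw [hcut]
    split_ifs with h
    · have h2 : gw n.toNat ≤ 2 * 64 ^ J := gw_le n.toNat N (by omega)
      exact_mod_cast h2
    · positivity
  have h2 := box_le a (fun n => norm_nonneg _) (2 * 64 ^ J) hB N (by
    intro n hn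
    rw [hcut, if_neg]
    rw [Finset.mem_Icc] at hn
    exact hn)
  refine h1.trans (h2.trans ?_)
  have h3 : ∑ n ∈ Finset.Icc (1 : ℤ) N, a n = ∑ n ∈ Finset.Icc 1 N, (gw n : ℝ) := by
    rw [← sum_toNat N (fun n => (gw n : ℝ))]
    apply Finset.sum_congr rfl
    intro n hn
    rw [Finset.mem_Icc] at hn
    rw [hcut, if_pos hn]
  rw [h3]
  have h4 := sum_gw N hN
  have h5 : (128 : ℝ) ^ J * ∑ n ∈ Finset.Icc 1 N, (gw n : ℝ) ≤ 2 * N := by exact_mod_cast h4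
  have h6 : 0 ≤ ∑ n ∈ Finset.Icc 1 N, (gw n : ℝ) := Finset.sum_nonneg (fun _ _ => by positivity)
  apply pow_le_pow_left₀ (by positivity)
  rw [le_div_iff₀ (by positivity)]
  calc 2 * 64 ^ J * (∑ n ∈ Finset.Icc 1 N, (gw n : ℝ)) * 2 ^ J
      = 2 * ((64 ^ J * 2 ^ J) * (∑ n ∈ Finset.Icc 1 N, (gw n : ℝ))) := by ring
    _ = 2 * (128 ^ J * (∑ n ∈ Finset.Icc 1 N, (gw n : ℝ))) := by
        rw [← mul_pow]; norm_num
    _ ≤ 2 * (2 * N) := by gcongr
    _ = 4 * N := by ring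

theorem gowers_den (N : ℕ) (hN : 8 ≤ N) :
    ((N : ℝ) / 8) ^ 4 ≤ ‖gowersSum 3 N (fun _ => 1)‖ := by
  have h1 : gowersSum 3 N (fun _ => 1) = ((∑ x ∈ Finset.Icc (1 : ℤ) N,
      ∑ h ∈ Fintype.piFinset (fun _ : Fin 3 => Finset.Icc (-(N : ℤ)) N),
      ∏ ω : Finset (Fin 3),
        (if 1 ≤ x + ∑ i ∈ ω, h i ∧ x + ∑ i ∈ ω, h i ≤ (N : ℤ) then (1 : ℝ) else 0) : ℝ) : ℂ) := by
    unfold gowersSum
    rw [Complex.ofReal_sum]
    apply Finset.sum_congr rfl
    intro x _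
    rw [Complex.ofReal_sum]
    apply Finset.sum_congr rfl
    intro h _
    rw [Complex.ofReal_prod]
    apply Finset.prod_congr rfl
    intro ω _
    unfold cut
    split_ifs <;> simp
  rw [h1, Complex.norm_real]
  refine le_trans ?_ (Real.le_norm_self _)
  refine le_trans ?_ (box_one N)
  apply pow_le_pow_left₀ (by positivity)
  have h2 : N ≤ 8 * (N / 4) := by omega
  have h3 : (N : ℝ) ≤ 8 * ((N / 4 : ℕ) : ℝ) := by exact_mod_cast h2
  linarith

theorem gowers_bound (N : ℕ) (hN : 8 ≤ N) :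
    gowersNorm 3 N (fun n => w n - majorArcs S0 1 n) ≤ 8 * (N : ℝ) ^ (-((1 : ℝ) / 64)) := by
  have hNpos : (0 : ℝ) < N := by
    have : 0 < N := by omega
    exact_mod_cast this
  have h1 := gowers_num N (by omega)
  have h2 := gowers_den N hN
  have h3 := rpow_thirtytwo N
  set J := Nat.log N0 N
  unfold gowersNorm
  have h4 : (0 : ℝ) < ((N : ℝ) / 8) ^ 4 := by positivity
  have h5 : ‖gowersSum 3 N (fun n => w n - majorArcs S0 1 n)‖ / ‖gowersSum 3 N (fun _ => 1)‖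
      ≤ (64 * (N : ℝ) ^ (-((1 : ℝ) / 32))) ^ 4 := by
    calc _ ≤ (4 * N / 2 ^ J) ^ 4 / ((N : ℝ) / 8) ^ 4 := by
          apply div_le_div₀ (by positivity) h1 h4 h2
      _ = (32 / 2 ^ J) ^ 4 := by
          rw [← div_pow]
          congr 1
          field_simp
          norm_num
      _ ≤ _ := by
          apply pow_le_pow_left₀ (by positivity)
          rw [Real.rpow_neg hNpos.le]
          have h6 : (0 : ℝ) < (N : ℝ) ^ ((1 : ℝ) / 32) := Real.rpow_pos_of_pos hNpos _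
          rw [← div_eq_mul_inv, div_le_div_iff₀ (by positivity) h6]
          linarith
  calc _ ≤ ((64 * (N : ℝ) ^ (-((1 : ℝ) / 32))) ^ 4) ^ ((1 : ℝ) / 2 ^ 3) :=
        Real.rpow_le_rpow (by positivity) h5 (by positivity)
    _ = 8 * (N : ℝ) ^ (-((1 : ℝ) / 64)) := by
        have h7 : (0 : ℝ) ≤ (N : ℝ) ^ (-((1 : ℝ) / 32)) := (Real.rpow_pos_of_pos hNpos _).le
        rw [← Real.rpow_natCast, ← Real.rpow_mul (by positivity), Real.mul_rpow (by norm_num) h7,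
          ← Real.rpow_mul hNpos.le]
        have h8 : (64 : ℝ) ^ (((4 : ℕ) : ℝ) * (1 / 2 ^ 3)) = 8 := by
          rw [show (64 : ℝ) = 8 ^ (2 : ℝ) by norm_num, ← Real.rpow_mul (by norm_num)]
          norm_num
        rw [h8]
        congr 2
        norm_num

theorem major : MajorArcApprox w S0 (fun _ => 1) := by
  refine ⟨sizeS0, sizeM1, 8, 5, 3, by norm_num, le_rfl, ?_⟩
  have h1 := isLittleO_log_rpow_rpow_atTop (s := (1 : ℝ) / 64) ((5 : ℝ) / 2 ^ 3) (by norm_num)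
  have h2 := (h1.bound (show (0 : ℝ) < 1 by norm_num))
  have h3 := tendsto_natCast_atTop_atTop (R := ℝ)
  have h4 := h3.eventually h2
  filter_upwards [h4, eventually_ge_atTop 8] with N hN hN8
  refine (gowers_bound N hN8).trans ?_
  have hNpos : (0 : ℝ) < N := by
    have : 0 < N := by omega
    exact_mod_cast this
  have hlog : 0 < Real.log N := Real.log_pos (by
    have : 1 < N := by omega
    exact_mod_cast this)
  have h5 : 0 < Real.log N ^ ((5 : ℝ) / 2 ^ 3) := Real.rpow_pos_of_pos hlog _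
  have h6 : 0 < (N : ℝ) ^ ((1 : ℝ) / 64) := Real.rpow_pos_of_pos hNpos _
  rw [one_mul, Real.norm_of_nonneg h5.le, Real.norm_of_nonneg h6.le] at hN
  rw [Real.rpow_neg hNpos.le, Real.rpow_neg hlog.le]
  gcongr

theorem fourier : FourierApprox w S0 (fun _ => 1) := by
  refine ⟨1 / 5, by norm_num, 256, ?_⟩
  filter_upwards [eventually_ge_atTop 1] with N hN β
  refine le_trans ?_ (avg_gw N hN)
  have hNpos : (0 : ℝ) < N := by exact_mod_cast hN
  rw [norm_mul, norm_div, norm_one, Complex.norm_natCast, one_div, inv_mul_eq_div]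
  gcongr
  refine (norm_sum_le _ _).trans ?_
  rw [← sum_toNat N (fun n => (gw n : ℝ))]
  apply Finset.sum_le_sum
  intro n _
  rw [norm_mul, dyadic_one, w_sub_one]
  have h1 : ‖ee (-((n : ℝ) * β))‖ = 1 := by
    unfold ee
    rw [show 2 * (Real.pi : ℂ) * Complex.I * ((-((n : ℝ) * β) : ℝ) : ℂ)
      = ((2 * Real.pi * (-((n : ℝ) * β)) : ℝ) : ℂ) * Complex.I by push_cast; ring]
    exact Complex.norm_exp_ofReal_mul_I _
  rw [h1, mul_one]
  simp

/-- **Negative answer to Q1.** There are a weight `w` which is admissible and satisfies the Fourier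
approximation condition (with the same data `S`, `M`), an invertible measure-preserving
transformation `T` of a probability space, exponents `p, q > 1` with `1/p + 1/q ≥ 1`, and
`f ∈ L^p`, `g ∈ L^q`, such that the averages `B_{w,N}(f,g)` fail to converge on a set of positive
measure. -/
theorem result :
    ∃ (w : ℤ → ℂ) (S : ℚ → ℂ) (M : ℕ → ℕ),
      UpperNormalized w ∧ MajorArcApprox w S M ∧ FourierApprox w S M ∧
      ∃ (X : Type) (_ : MeasurableSpace X) (μ : Measure X) (T : X ≃ᵐ X),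
        IsProbabilityMeasure μ ∧ MeasurePreserving T μ μ ∧
        ∃ p q : ℝ, 1 < p ∧ 1 < q ∧ 1 ≤ 1 / p + 1 / q ∧
        ∃ f g : X → ℂ, MemLp f (ENNReal.ofReal p) μ ∧ MemLp g (ENNReal.ofReal q) μ ∧
          0 < μ {x | ¬ ∃ ℓ : ℂ, Tendsto (fun N : ℕ => bilin w T f g N x) atTop (𝓝 ℓ)} := by
  refine ⟨w, S0, fun _ => 1, upper, major, fourier, XX, inferInstance, mu, TT, inferInstance,
    TT_mp, 101 / 100, 101 / 100, by norm_num, by norm_num, by norm_num,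
    fun x => ((fR AF x : ℝ) : ℂ), fun x => ((fR AG x : ℝ) : ℂ),
    fR_memLp AF AF_meas AF_small, fR_memLp AG AG_meas AG_small, ?_⟩
  refine lt_of_lt_of_le diverge (measure_mono ?_)
  intro x hx
  rw [Set.mem_ofPred_eq] at hx ⊢
  rintro ⟨ℓ, hℓ⟩
  have h1 : ∀ N : ℕ, bilin w TT (fun x => ((fR AF x : ℝ) : ℂ)) (fun x => ((fR AG x : ℝ) : ℂ)) N x
      = ((avR N x : ℝ) : ℂ) := by
    intro N
    unfold bilin avR w
    push_cast
    rfl
  simp only [h1] at hℓ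
  have h2 := hℓ.norm
  have h3 := h2.eventually (gt_mem_nhds (show ‖ℓ‖ < ‖ℓ‖ + 1 by linarith))
  rw [eventually_atTop] at h3
  obtain ⟨N₀, hN₀⟩ := h3
  obtain ⟨N, hN, hR⟩ := hx (‖ℓ‖ + 1) N₀
  have h4 := hN₀ N hN
  rw [Complex.norm_real] at h4
  have h5 := Real.le_norm_self (avR N x)
  linarith

end Pool.Agent.Results.MP_365e45_an.WeightedDivergence
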